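import Pool.Agent.helper62.DP8.Spec

set_option autoImplicit false

namespace Pool.Agent.helper62.DP8

lemma ABH_mod {α : Type} {g : ℕ} {f : ℕ → α} (h : ∀ i, f (i + g) = f i) (i j : ℕ) (hij : i % g = j % g) : f i = f j := by
  have hp : Function.Periodic f g := h
  rw [← hp.map_mod_nat i, ← hp.map_mod_nat j, hij]

lemma ABH_ne {α : Type} {g : ℕ} {u : ℕ → α} (hg : 0 < g) (h : ∀ i, u (i + g) = u i)
    (hinj : ∀ i < g, ∀ j < g, u i = u j → i = j) (i j : ℕ) (hij : i < j) (hj : j < i + g) : u i ≠ u j := by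
  intro he
  have hp : Function.Periodic u g := h
  rw [← hp.map_mod_nat i, ← hp.map_mod_nat j] at he
  have h1 : i % g = j % g := hinj _ (Nat.mod_lt _ hg) _ (Nat.mod_lt _ hg) he
  have h2 : (j - i) % g = 0 := Nat.sub_mod_eq_zero_of_mod_eq h1.symm
  rw [Nat.mod_eq_of_lt (by omega)] at h2
  omega

lemma ABH_k {g : ℕ} (hg : 0 < g) (i j : ℕ) : ∃ k < g, (j + k) % g = i % g := by
  refine ⟨(i + (g - 1) * j) % g, Nat.mod_lt _ hg, ?_⟩
  rw [Nat.add_mod_mod]
  have h1 : j + (i + (g - 1) * j) = i + g * j := by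
    obtain ⟨m, rfl⟩ : ∃ m, g = m + 1 := ⟨g - 1, by omega⟩
    simp only [Nat.add_sub_cancel]
    ring
  rw [h1, Nat.add_mul_mod_self_left]

theorem ABH (hABC : ABC_stmt) : ABH_stmt := by
  intro V _ H g u p hg hu hp hui hpi hup hadj hN1 hN2 hN3 W R L _ C hL
  have hg0 : 0 < g := by omega
  set S : Finset V := (Finset.range g).image u ∪ (Finset.range g).image p with hS
  have huS : ∀ i, u i ∈ S := by
    intro i
    rw [hS, Finset.mem_union]
    left
    rw [Finset.mem_image]
    exact ⟨i % g, Finset.mem_range.2 (Nat.mod_lt _ hg0), ABH_mod hu _ _ (Nat.mod_mod _ _)⟩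
  have hpS : ∀ i, p i ∈ S := by
    intro i
    rw [hS, Finset.mem_union]
    right
    rw [Finset.mem_image]
    exact ⟨i % g, Finset.mem_range.2 (Nat.mod_lt _ hg0), ABH_mod hp _ _ (Nat.mod_mod _ _)⟩
  have hSm : ∀ v ∈ S, (∃ i, v = u i) ∨ (∃ i, v = p (i + 1)) := by
    intro v hv
    rw [hS, Finset.mem_union, Finset.mem_image, Finset.mem_image] at hv
    rcases hv with ⟨i, _, rfl⟩ | ⟨i, _, rfl⟩
    · exact Or.inl ⟨i, rfl⟩
    · refine Or.inr ⟨i + (g - 1), ?_⟩
      have h1 : i + (g - 1) + 1 = i + g := by omega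
      rw [h1, hp]
  have hune := ABH_ne hg0 hu hui
  have hpne := ABH_ne hg0 hp hpi
  -- degrees
  have hd1 : ∀ i, 7 ≤ dg H S (u i) := by
    intro i
    obtain ⟨k, hk⟩ : ∃ k, i + g = k + 2 := ⟨i + g - 2, by omega⟩
    rw [← hu i, hk]
    classical
    have hA : (({k, k + 1, k + 3, k + 4} : Finset ℕ).image u).card = 4 := by
      rw [Finset.card_image_of_injOn]
      · rw [Finset.card_insert_of_notMem, Finset.card_insert_of_notMem, Finset.card_insert_of_notMem, Finset.card_singleton] <;> simp
      · intro x hx y hy hxy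
        simp only [Finset.coe_insert, Finset.coe_singleton, Set.mem_insert_iff, Set.mem_singleton_iff] at hx hy
        by_contra hne
        rcases Nat.lt_or_gt_of_ne hne with h | h
        · exact hune x y h (by omega) hxy
        · exact hune y x h (by omega) hxy.symm
    have hB : (({k + 1, k + 2, k + 3} : Finset ℕ).image p).card = 3 := by
      rw [Finset.card_image_of_injOn]
      · rw [Finset.card_insert_of_notMem, Finset.card_insert_of_notMem, Finset.card_singleton] <;> simp
      · intro x hx y hy hxy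
        simp only [Finset.coe_insert, Finset.coe_singleton, Set.mem_insert_iff, Set.mem_singleton_iff] at hx hy
        by_contra hne
        rcases Nat.lt_or_gt_of_ne hne with h | h
        · exact hpne x y h (by omega) hxy
        · exact hpne y x h (by omega) hxy.symm
    have hdis : Disjoint (({k, k + 1, k + 3, k + 4} : Finset ℕ).image u) (({k + 1, k + 2, k + 3} : Finset ℕ).image p) := by
      rw [Finset.disjoint_left]
      intro x hx hy
      rw [Finset.mem_image] at hx hy
      obtain ⟨a, _, rfl⟩ := hx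
      obtain ⟨b, _, hb⟩ := hy
      exact hup a b hb.symm
    have hsub : (({k, k + 1, k + 3, k + 4} : Finset ℕ).image u) ∪ (({k + 1, k + 2, k + 3} : Finset ℕ).image p) ⊆ S.filter (fun w => H.Adj (u (k + 2)) w) := by
      intro w hw
      rw [Finset.mem_filter]
      rw [Finset.mem_union, Finset.mem_image, Finset.mem_image] at hw
      rcases hw with ⟨a, ha, rfl⟩ | ⟨a, ha, rfl⟩
      · refine ⟨huS a, ?_⟩
        simp only [Finset.mem_insert, Finset.mem_singleton] at ha
        rcases ha with rfl | rfl | rfl | rfl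
        · exact (hadj a).2.1.symm
        · exact (hadj (k + 1)).1.symm
        · exact (hadj (k + 2)).1
        · exact (hadj (k + 2)).2.1
      · refine ⟨hpS a, ?_⟩
        simp only [Finset.mem_insert, Finset.mem_singleton] at ha
        rcases ha with rfl | rfl | rfl
        · exact (hadj k).2.2.2.2.symm
        · exact (hadj (k + 1)).2.2.2.1.symm
        · exact (hadj (k + 2)).2.2.1.symm
    have hc := Finset.card_le_card hsub
    rw [Finset.card_union_of_disjoint hdis, hA, hB] at hc
    unfold dg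
    have he : ∀ (T1 T2 : Finset V), (∀ z, z ∈ T1 ↔ z ∈ T2) → T1.card = T2.card := by
      intro T1 T2 h
      rw [Finset.ext h]
    rw [he _ (S.filter (fun w => H.Adj (u (k + 2)) w)) (by intro z; rw [Finset.mem_filter])]
    exact hc
  have hd2 : ∀ i, 3 ≤ dg H S (p i) := by
    intro i
    obtain ⟨k, hk⟩ : ∃ k, i + g = k + 1 := ⟨i + g - 1, by omega⟩
    rw [← hp i, hk]
    classical
    have hA : (({k, k + 1, k + 2} : Finset ℕ).image u).card = 3 := by
      rw [Finset.card_image_of_injOn]
      · rw [Finset.card_insert_of_notMem, Finset.card_insert_of_notMem, Finset.card_singleton] <;> simp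
      · intro x hx y hy hxy
        simp only [Finset.coe_insert, Finset.coe_singleton, Set.mem_insert_iff, Set.mem_singleton_iff] at hx hy
        by_contra hne
        rcases Nat.lt_or_gt_of_ne hne with h | h
        · exact hune x y h (by omega) hxy
        · exact hune y x h (by omega) hxy.symm
    have hsub : (({k, k + 1, k + 2} : Finset ℕ).image u) ⊆ S.filter (fun w => H.Adj (p (k + 1)) w) := by
      intro w hw
      rw [Finset.mem_filter]
      rw [Finset.mem_image] at hw
      obtain ⟨a, ha, rfl⟩ := hw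
      refine ⟨huS a, ?_⟩
      simp only [Finset.mem_insert, Finset.mem_singleton] at ha
      rcases ha with rfl | rfl | rfl
      · exact (hadj a).2.2.1
      · exact (hadj k).2.2.2.1
      · exact (hadj k).2.2.2.2
    have hc := Finset.card_le_card hsub
    rw [hA] at hc
    unfold dg
    have he : ∀ (T1 T2 : Finset V), (∀ z, z ∈ T1 ↔ z ∈ T2) → T1.card = T2.card := by
      intro T1 T2 h
      rw [Finset.ext h]
    rw [he _ (S.filter (fun w => H.Adj (p (k + 1)) w)) (by intro z; rw [Finset.mem_filter])]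
    exact hc
  have hc1 : ∀ i, 6 ≤ (L (u i)).card := by
    intro i
    have h1 := hL (u i) (huS i)
    have h2 := hd1 i
    simp only at h1
    omega
  have hc2 : ∀ i, 2 ≤ (L (p i)).card := by
    intro i
    have h1 := hL (p i) (hpS i)
    have h2 := hd2 i
    simp only at h1
    omega
  have hqe : ∀ v : V, ∃ q : Bool → W, (∃ i, v = p i) → (∀ s, q s ∈ L v) ∧ q true ≠ q false := by
    intro v
    by_cases hv : ∃ i, v = p i
    · obtain ⟨i, rfl⟩ := hv
      have h2 := hc2 i
      obtain ⟨x, hx, y, hy, hxy⟩ := Finset.one_lt_card.1 (show 1 < (L (p i)).card by omega)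
      refine ⟨fun s => if s = true then x else y, fun _ => ⟨?_, ?_⟩⟩
      · intro s
        cases s
        · simpa using hy
        · simpa using hx
      · simpa using hxy
    · exact ⟨fun _ => Classical.arbitrary W, fun h => absurd h hv⟩
  choose q hq using hqe
  have hCyc : Cyc g W (fun i => L (u i)) R (fun i s x => R (q (p i) s) x) := by
    refine ⟨hg, ?_, ?_, hc1, C.symm, ?_, ?_, ?_, ?_⟩
    · intro i
      simp only [hu]
    · intro i s x
      simp only [hp]
    · intro i j hij hj x hx y hy y' hy' h1 h2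
      exact C.mat (u i) (u j) (hune i j hij hj) x hx y hy y' hy' h1 h2
    · intro i j hij hj x hx y hy y' hy' h1 h2
      exact C.mat (u j) (u i) (hune i j hij hj).symm x hx y hy y' hy' h1 h2
    · intro i j s _ _ x hx y hy h1 h2
      exact C.mat (p j) (u (i + 1)) (hup _ _).symm (q (p j) s) ((hq (p j) ⟨j, rfl⟩).1 s) x hx y hy h1 h2
    · rintro i j _ _ x hx ⟨h1, h2⟩
      exact (hq (p j) ⟨j, rfl⟩).2 (C.mat (u (i + 1)) (p j) (hup _ _) x hx _ ((hq (p j) ⟨j, rfl⟩).1 true) _
        ((hq (p j) ⟨j, rfl⟩).1 false) (C.symm _ _ h1) (C.symm _ _ h2))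
  obtain ⟨f, hfp, hfm, hfR, hfs⟩ := hABC g W _ R _ hCyc
  simp only at hfm hfs
  -- the colours of the cycle
  have hff : ∀ i k, 1 ≤ k → k < g → ¬ R (f i) (f (i + k)) := by
    intro i k hk1 hk2 hR
    by_cases h1 : k = 1
    · subst h1
      exact (hfR i).1 hR
    by_cases h2 : k = 2
    · subst h2
      exact (hfR i).2 hR
    by_cases h3 : k + 3 ≤ g
    · exact C.non (u i) (u (i + k)) (hune i (i + k) (by omega) (by omega)) (hN1 i k (by omega) h3) _ (hfm i) _ (hfm (i + k)) hR
    by_cases h4 : k + 1 = g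
    · have h5 := (hfR (i + k)).1
      rw [show i + k + 1 = i + g by omega, hfp] at h5
      exact h5 (C.symm _ _ hR)
    · have h5 := (hfR (i + k)).2
      rw [show i + k + 2 = i + g by omega, hfp] at h5
      exact h5 (C.symm _ _ hR)
  have hfu : ∀ i j, u i ≠ u j → ¬ R (f i) (f j) := by
    intro i j hne
    obtain ⟨k, hk, hkm⟩ := ABH_k hg0 j i
    have h1 : u (i + k) = u j := ABH_mod hu _ _ hkm
    have h2 : f (i + k) = f j := ABH_mod hfp _ _ hkm
    rw [← h2]
    apply hff i k _ hk
    rcases Nat.eq_zero_or_pos k with h | h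
    · subst h
      exact absurd h1 hne
    · exact h
  have hfpn : ∀ i j w, w ∈ L (p (j + 1)) → ¬ R w (f j) → ¬ R w (f (j + 1)) → ¬ R w (f (j + 2)) → ¬ R w (f i) := by
    intro i j w hw h0 h1 h2
    obtain ⟨k, hk, hkm⟩ := ABH_k hg0 i j
    have h4 : f (j + k) = f i := ABH_mod hfp _ _ hkm
    rw [← h4]
    by_cases e0 : k = 0
    · subst e0
      exact h0
    by_cases e1 : k = 1
    · subst e1
      exact h1
    by_cases e2 : k = 2
    · subst e2
      exact h2
    have h5 := hN2 (j + 1) (k - 1) (by omega) (by omega)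
    rw [show j + 1 + (k - 1) = j + k by omega] at h5
    exact C.non (p (j + 1)) (u (j + k)) (hup _ _).symm h5 w hw _ (hfm (j + k))
  have hF : ∀ v : V, ∃ w : W, v ∈ S → (∃ i, v = u i ∧ w = f i) ∨ (∃ i, v = p (i + 1) ∧ w ∈ L v ∧ ¬ R w (f i) ∧ ¬ R w (f (i + 1)) ∧ ¬ R w (f (i + 2))) := by
    intro v
    by_cases hv : v ∈ S
    · rcases hSm v hv with ⟨i, rfl⟩ | ⟨i, rfl⟩
      · exact ⟨f i, fun _ => Or.inl ⟨i, rfl, rfl⟩⟩
      · obtain ⟨s, hs⟩ := hfs i
        exact ⟨q (p (i + 1)) s, fun _ => Or.inr ⟨i, rfl, (hq (p (i + 1)) ⟨i + 1, rfl⟩).1 s, hs⟩⟩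
    · exact ⟨Classical.arbitrary W, fun h => absurd h hv⟩
  choose F hF using hF
  refine ⟨F, ?_, ?_⟩
  · intro v hv
    rcases hF v hv with ⟨i, h1, h2⟩ | ⟨i, h1, h2, _⟩
    · rw [h2, h1]
      exact hfm i
    · exact h2
  · intro a ha b hb hab
    rcases hF a ha with ⟨i, h1, h2⟩ | ⟨i, h1, h2, h3, h4, h5⟩
    · rcases hF b hb with ⟨j, h1', h2'⟩ | ⟨j, h1', h2', h3', h4', h5'⟩
      · rw [h2, h2']
        apply hfu
        rw [← h1, ← h1']
        exact hab
      · rw [h2]
        intro hR
        rw [h1'] at h2' 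
        rw [← h1'] at h2'
        have h6 := h2'
        have h7 : F b ∈ L (p (j + 1)) := by
          rw [← h1']
          exact h6
        exact hfpn i j (F b) h7 h3' h4' h5' (C.symm _ _ hR)
    · rcases hF b hb with ⟨j, h1', h2'⟩ | ⟨j, h1', h2', h3', h4', h5'⟩
      · rw [h2']
        have h7 : F a ∈ L (p (i + 1)) := by
          rw [← h1]
          exact h2
        exact hfpn j i (F a) h7 h3 h4 h5
      · refine C.non a b hab ?_ _ h2 _ h2'
        rw [h1, h1']
        exact hN3 _ _

end Pool.Agent.helper62.DP8
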